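import Mathlib
import Pool.Agent.H37.MisBip.Main

set_option autoImplicit false

/-! Negative answer to Q1 for every `n ≥ 2`. -/

namespace Pool.Agent.Results.MP_93ee52_co.AllSizes

open Pool.Agent.H37.MisBip

/-- For every `n ≥ 2` there is a connected bipartite (so triangle-free) graph with `10 n` vertices and
minimum degree at least `3` which has exactly `2 ^ (5 n - 2) + 1` maximal independent sets, and this
is larger than `15 ^ n`. -/
theorem result (n : ℕ) (hn : 2 ≤ n) :
    ∃ (V : Type) (_ : Fintype V) (G : SimpleGraph V),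
      Fintype.card V = 10 * n ∧ G.Connected ∧ G.Colorable 2 ∧ G.CliqueFree 3 ∧
        (∀ v, 3 ≤ (G.neighborSet v).ncard) ∧ mis G = 2 ^ (5 * n - 2) + 1 ∧ 15 ^ n < mis G :=
  bound_fails n hn

end Pool.Agent.Results.MP_93ee52_co.AllSizes
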