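import Mathlib
import Pool.Agent.H4.Cub.Small

set_option autoImplicit false

/-! Negative answer to Q1 in the class of cubic graphs, for every `n ≥ 2`. -/

namespace Pool.Agent.Results.MP_93ee52_co.CubicGraphs

open Pool.Agent.H4.Cub

/-- For every `n ≥ 2` there is a 3-regular triangle-free graph on `10 n` vertices which has exactly
`248 * 15 ^ (n - 2)` maximal independent sets, and this is larger than `15 ^ n`. -/
theorem result (n : ℕ) (hn : 2 ≤ n) :
    ∃ (V : Type) (_ : Fintype V) (G : SimpleGraph V),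
      Fintype.card V = 10 * n ∧ G.CliqueFree 3 ∧ (∀ v, (G.neighborSet v).ncard = 3) ∧
        mis G = 248 * 15 ^ (n - 2) ∧ 15 ^ n < mis G := by
  obtain ⟨k, rfl⟩ : ∃ k, n = k + 2 := ⟨n - 2, by omega⟩
  obtain ⟨V, hV, G, hc, h3, ht, hm⟩ := cubic k
  refine ⟨V, hV, G, hc, ht, h3, ?_, ?_⟩
  · rw [hm, Nat.add_sub_cancel]
  · rw [hm, pow_add]
    have h : 0 < 15 ^ k := by positivity
    omega

end Pool.Agent.Results.MP_93ee52_co.CubicGraphs
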